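import Mathlib

set_option autoImplicit false

open Set

namespace Pool.Agent.Results.MP_b5b962_gt.SharedVertex

/-- A convex polytope: the convex hull of finitely many (and at least one) points. -/
def IsConvexPolytope {E : Type} [AddCommGroup E] [Module ℝ E] (C : Set E) : Prop :=
  ∃ s : Set E, s.Finite ∧ s.Nonempty ∧ C = convexHull ℝ s

/-- A simplex: the convex hull of a nonempty finite affinely independent family. -/
def IsSimplex {E : Type} [AddCommGroup E] [Module ℝ E] (T : Set E) : Prop :=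
  ∃ (n : ℕ) (v : Fin (n + 1) → E), AffineIndependent ℝ v ∧ T = convexHull ℝ (range v)

/-- The convex-form space of `C`: the set of all functions `ω : C → ℝ` with values in `[0,1]`
that are affine on `C`. -/
def FormSpace {E : Type} [AddCommGroup E] [Module ℝ E] (C : Set E) : Set (C → ℝ) :=
  {ω | (∀ x : C, 0 ≤ ω x ∧ ω x ≤ 1) ∧
    ∀ (x y z : C) (l : ℝ), 0 ≤ l → l ≤ 1 → (z : E) = l • (x : E) + (1 - l) • (y : E) →
      ω z = l * ω x + (1 - l) * ω y}

/-- A partial affine onto map from `X` to `Y`: a map defined on a subset `dom` of `X` such that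
whenever it is defined at `x` and `y` and `0 ≤ l ≤ 1`, it is defined at `l x + (1 - l) y` with
value `l h(x) + (1 - l) h(y)`, and whose set of values is all of `Y`. -/
structure PartialAffineOnto {E F : Type} [AddCommGroup E] [Module ℝ E] [AddCommGroup F]
    [Module ℝ F] (X : Set E) (Y : Set F) where
  /-- the domain of definition -/
  dom : Set E
  dom_subset : dom ⊆ X
  /-- the map -/
  toFun : dom → Y
  affine : ∀ (x y : dom) (l : ℝ), 0 ≤ l → l ≤ 1 →
    ∃ h : l • (x : E) + (1 - l) • (y : E) ∈ dom,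
      (toFun ⟨_, h⟩ : F) = l • (toFun x : F) + (1 - l) • (toFun y : F)
  onto : Function.Surjective toFun

/-- The preimage (inside the domain of definition) of a point under a partial affine onto map. -/
def PartialAffineOnto.preimage {E F : Type} [AddCommGroup E] [Module ℝ E] [AddCommGroup F]
    [Module ℝ F] {X : Set E} {Y : Set F} (h : PartialAffineOnto X Y) (y : F) : Set E :=
  {x | ∃ hx : x ∈ h.dom, (h.toFun ⟨x, hx⟩ : F) = y}

/-- A simplicial refinement `(T, Ω_T, f, g)` of the statistical model `(C, Ω_C)`. -/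
structure SimplicialRefinement {E V : Type} [AddCommGroup E] [Module ℝ E] [AddCommGroup V]
    [Module ℝ V] (C : Set E) (T : Set V) where
  isSimplex : IsSimplex T
  f : PartialAffineOnto T C
  g : PartialAffineOnto (FormSpace T) (FormSpace C)
  compatible : ∀ (x : f.dom) (ω : g.dom),
    (g.toFun ω : C → ℝ) (f.toFun x) = (ω : T → ℝ) ⟨x, f.dom_subset x.2⟩

/-- The vertex `v i` of the simplex with vertex family `v` has a positive barycentric coefficient
at some point of `S`. -/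
def PositiveAt {V : Type} [AddCommGroup V] [Module ℝ V] {m : ℕ} (v : Fin m → V) (S : Set V)
    (i : Fin m) : Prop :=
  ∃ w : Fin m → ℝ, (∀ j, 0 ≤ w j) ∧ ∑ j, w j = 1 ∧ ∑ j, w j • v j ∈ S ∧ 0 < w i

/-- The minimal face, of the simplex with vertex family `v`, containing `S`. -/
def minimalFace {V : Type} [AddCommGroup V] [Module ℝ V] {m : ℕ} (v : Fin m → V) (S : Set V) :
    Set V :=
  convexHull ℝ (v '' {i | PositiveAt v S i})

/-! ### The trapezoid -/

/-- The trapezoid with vertices (0,0), (3,0), (2,1), (1,1). -/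
def trap : Set (Fin 2 → ℝ) := convexHull ℝ {![0, 0], ![3, 0], ![2, 1], ![1, 1]}

lemma trap_le {z : Fin 2 → ℝ} (hz : z ∈ trap) :
    0 ≤ z 1 ∧ z 1 ≤ 1 ∧ z 1 ≤ z 0 ∧ z 0 + z 1 ≤ 3 := by
  have hconv : Convex ℝ {z : Fin 2 → ℝ | 0 ≤ z 1 ∧ z 1 ≤ 1 ∧ z 1 ≤ z 0 ∧ z 0 + z 1 ≤ 3} := by
    rintro x ⟨hx1, hx2, hx3, hx4⟩ y ⟨hy1, hy2, hy3, hy4⟩ a b ha hb hab
    have hb' : b = 1 - a := by linarith
    subst hb'
    refine ⟨?_, ?_, ?_, ?_⟩ <;> simp only [Pi.add_apply, Pi.smul_apply, smul_eq_mul] <;> nlinarith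
  have hsub : ({![0, 0], ![3, 0], ![2, 1], ![1, 1]} : Set (Fin 2 → ℝ)) ⊆
      {z : Fin 2 → ℝ | 0 ≤ z 1 ∧ z 1 ≤ 1 ∧ z 1 ≤ z 0 ∧ z 0 + z 1 ≤ 3} := by
    rintro x (rfl | rfl | rfl | rfl) <;> norm_num
  exact convexHull_min hsub hconv hz

lemma convex_trap : Convex ℝ trap := convex_convexHull ℝ _

lemma m0 : (![0, 0] : Fin 2 → ℝ) ∈ trap := subset_convexHull ℝ _ (by simp)
lemma m1 : (![3, 0] : Fin 2 → ℝ) ∈ trap := subset_convexHull ℝ _ (by simp)
lemma m2 : (![2, 1] : Fin 2 → ℝ) ∈ trap := subset_convexHull ℝ _ (by simp)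
lemma m3 : (![1, 1] : Fin 2 → ℝ) ∈ trap := subset_convexHull ℝ _ (by simp)

/-- the parameter of `z` along the horizontal chord through it -/
lemma chord {z : Fin 2 → ℝ} (hz : z ∈ trap) :
    ∃ s : ℝ, 0 ≤ s ∧ s ≤ 1 ∧ s * (3 - 2 * z 1) = z 0 - z 1 := by
  obtain ⟨h1, h2, h3, h4⟩ := trap_le hz
  have hpos : 0 < 3 - 2 * z 1 := by linarith
  refine ⟨(z 0 - z 1) / (3 - 2 * z 1), div_nonneg (by linarith) hpos.le, ?_, ?_⟩
  · rw [div_le_one hpos]; linarith
  · exact div_mul_cancel₀ _ hpos.ne'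

lemma comb_mem_trap {a0 a1 a2 a3 : ℝ} (h0 : 0 ≤ a0) (h1 : 0 ≤ a1) (h2 : 0 ≤ a2) (h3 : 0 ≤ a3)
    (hs : a0 + a1 + a2 + a3 = 1) : (![3 * a1 + 2 * a2 + a3, a2 + a3] : Fin 2 → ℝ) ∈ trap := by
  have key := convex_trap.sum_mem (t := (Finset.univ : Finset (Fin 4)))
    (w := ![a0, a1, a2, a3]) (z := ![![0, 0], ![3, 0], ![2, 1], ![1, 1]])
    (by intro i _; fin_cases i <;> simpa) (by simp [Fin.sum_univ_four, hs])
    (by intro i _; fin_cases i; exacts [m0, m1, m2, m3])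
  convert key using 1
  simp only [Fin.sum_univ_four]
  ext i
  fin_cases i
  · simp; ring
  · simp

lemma zero_of_comb {a b p q : ℝ} (ha : 0 < a) (hb : 0 < b) (hp : 0 ≤ p) (hq : 0 ≤ q)
    (h : a * p + b * q = 0) : p = 0 ∧ q = 0 := by
  have h1 : 0 ≤ a * p := mul_nonneg ha.le hp
  have h2 : 0 ≤ b * q := mul_nonneg hb.le hq
  have h3 : a * p = 0 := by linarith
  have h4 : b * q = 0 := by linarith
  exact ⟨(mul_eq_zero.1 h3).resolve_left ha.ne', (mul_eq_zero.1 h4).resolve_left hb.ne'⟩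

lemma ext_vec {x : Fin 2 → ℝ} {a b : ℝ} (h0 : x 0 = a) (h1 : x 1 = b) : x = ![a, b] := by
  ext i; fin_cases i <;> simpa

lemma e0 : (![0, 0] : Fin 2 → ℝ) ∈ trap.extremePoints ℝ := by
  rw [mem_extremePoints]
  refine ⟨m0, ?_⟩
  rintro x hx y hy ⟨a, b, ha, hb, hab, h⟩
  obtain ⟨hx1, hx2, hx3, hx4⟩ := trap_le hx
  obtain ⟨hy1, hy2, hy3, hy4⟩ := trap_le hy
  have h0 := congrFun h 0
  have h1 := congrFun h 1
  simp only [Pi.add_apply, Pi.smul_apply, smul_eq_mul, Matrix.cons_val_zero,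
    Matrix.cons_val_one] at h0 h1
  obtain ⟨p1, q1⟩ := zero_of_comb ha hb hx1 hy1 h1
  obtain ⟨p0, q0⟩ := zero_of_comb ha hb (by linarith : 0 ≤ x 0) (by linarith : 0 ≤ y 0) h0
  exact ⟨ext_vec p0 p1, ext_vec q0 q1⟩

lemma e1 : (![3, 0] : Fin 2 → ℝ) ∈ trap.extremePoints ℝ := by
  rw [mem_extremePoints]
  refine ⟨m1, ?_⟩
  rintro x hx y hy ⟨a, b, ha, hb, hab, h⟩
  obtain ⟨hx1, hx2, hx3, hx4⟩ := trap_le hx
  obtain ⟨hy1, hy2, hy3, hy4⟩ := trap_le hy
  have h0 := congrFun h 0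
  have h1 := congrFun h 1
  simp only [Pi.add_apply, Pi.smul_apply, smul_eq_mul, Matrix.cons_val_zero,
    Matrix.cons_val_one] at h0 h1
  obtain ⟨p1, q1⟩ := zero_of_comb ha hb hx1 hy1 h1
  obtain ⟨p0, q0⟩ := zero_of_comb ha hb (by linarith : 0 ≤ 3 - x 0) (by linarith : 0 ≤ 3 - y 0)
    (by linear_combination 3 * hab - h0)
  exact ⟨ext_vec (by linarith) p1, ext_vec (by linarith) q1⟩

lemma e2 : (![2, 1] : Fin 2 → ℝ) ∈ trap.extremePoints ℝ := by
  rw [mem_extremePoints]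
  refine ⟨m2, ?_⟩
  rintro x hx y hy ⟨a, b, ha, hb, hab, h⟩
  obtain ⟨hx1, hx2, hx3, hx4⟩ := trap_le hx
  obtain ⟨hy1, hy2, hy3, hy4⟩ := trap_le hy
  have h0 := congrFun h 0
  have h1 := congrFun h 1
  simp only [Pi.add_apply, Pi.smul_apply, smul_eq_mul, Matrix.cons_val_zero,
    Matrix.cons_val_one] at h0 h1
  obtain ⟨p1, q1⟩ := zero_of_comb ha hb (by linarith : 0 ≤ 1 - x 1) (by linarith : 0 ≤ 1 - y 1)
    (by linear_combination hab - h1)
  obtain ⟨p0, q0⟩ := zero_of_comb ha hb (by linarith : 0 ≤ 2 - x 0) (by linarith : 0 ≤ 2 - y 0)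
    (by linear_combination 2 * hab - h0)
  exact ⟨ext_vec (by linarith) (by linarith), ext_vec (by linarith) (by linarith)⟩

lemma e3 : (![1, 1] : Fin 2 → ℝ) ∈ trap.extremePoints ℝ := by
  rw [mem_extremePoints]
  refine ⟨m3, ?_⟩
  rintro x hx y hy ⟨a, b, ha, hb, hab, h⟩
  obtain ⟨hx1, hx2, hx3, hx4⟩ := trap_le hx
  obtain ⟨hy1, hy2, hy3, hy4⟩ := trap_le hy
  have h0 := congrFun h 0
  have h1 := congrFun h 1
  simp only [Pi.add_apply, Pi.smul_apply, smul_eq_mul, Matrix.cons_val_zero,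
    Matrix.cons_val_one] at h0 h1
  obtain ⟨p1, q1⟩ := zero_of_comb ha hb (by linarith : 0 ≤ 1 - x 1) (by linarith : 0 ≤ 1 - y 1)
    (by linear_combination hab - h1)
  obtain ⟨p0, q0⟩ := zero_of_comb ha hb (by linarith : 0 ≤ x 0 - 1) (by linarith : 0 ≤ y 0 - 1)
    (by linear_combination h0 - hab)
  exact ⟨ext_vec (by linarith) (by linarith), ext_vec (by linarith) (by linarith)⟩

lemma trap_polytope : IsConvexPolytope trap :=
  ⟨{![0, 0], ![3, 0], ![2, 1], ![1, 1]}, by simp, by simp, rfl⟩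

/-- The trapezoid is not a simplex. -/
lemma trap_not_simplex : ¬ IsSimplex trap := by
  rintro ⟨n, w, hw, hT⟩
  have hmem : ∀ x ∈ trap.extremePoints ℝ, ∃ k, w k = x := by
    intro x hx
    rw [hT] at hx
    have hx' : x ∈ range w := extremePoints_convexHull_subset hx
    exact hx'
  obtain ⟨k0, h0⟩ := hmem _ e0
  obtain ⟨k1, h1⟩ := hmem _ e1
  obtain ⟨k2, h2⟩ := hmem _ e2
  obtain ⟨k3, h3⟩ := hmem _ e3
  have n01 : k0 ≠ k1 := by
    rintro rfl
    have := congrFun (h0.symm.trans h1) 0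
    norm_num at this
  have n02 : k0 ≠ k2 := by
    rintro rfl
    have := congrFun (h0.symm.trans h2) 0
    norm_num at this
  have n03 : k0 ≠ k3 := by
    rintro rfl
    have := congrFun (h0.symm.trans h3) 0
    norm_num at this
  have n12 : k1 ≠ k2 := by
    rintro rfl
    have := congrFun (h1.symm.trans h2) 0
    norm_num at this
  have n13 : k1 ≠ k3 := by
    rintro rfl
    have := congrFun (h1.symm.trans h3) 0
    norm_num at this
  have n23 : k2 ≠ k3 := by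
    rintro rfl
    have := congrFun (h2.symm.trans h3) 0
    norm_num at this
  have key := affineIndependent_iff.1 hw {k0, k1, k2, k3}
    (fun i => if i = k0 then 1 else if i = k1 then -1 else if i = k2 then 3 else -3)
    (by
      rw [Finset.sum_insert (by simp [n01, n02, n03]), Finset.sum_insert (by simp [n12, n13]),
        Finset.sum_insert (by simp [n23]), Finset.sum_singleton]
      simp only [if_true, if_neg n01.symm, if_neg n02.symm, if_neg n03.symm, if_neg n12.symm,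
        if_neg n13.symm, if_neg n23.symm]
      norm_num)
    (by
      rw [Finset.sum_insert (by simp [n01, n02, n03]), Finset.sum_insert (by simp [n12, n13]),
        Finset.sum_insert (by simp [n23]), Finset.sum_singleton]
      simp only [if_true, if_neg n01.symm, if_neg n02.symm, if_neg n03.symm, if_neg n12.symm,
        if_neg n13.symm, if_neg n23.symm, h0, h1, h2, h3]
      ext i
      fin_cases i <;> norm_num)
    k0 (by simp)
  simp at key

/-! ### The 4-simplex -/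

/-- The vertices of the 4-simplex: the standard basis of `ℝ⁵`. -/
def vtx : Fin 5 → (Fin 5 → ℝ) := fun i => Pi.single i 1

/-- The 4-simplex. -/
def simp4 : Set (Fin 5 → ℝ) := convexHull ℝ (range vtx)

lemma simp4_eq : simp4 = stdSimplex ℝ (Fin 5) :=
  convexHull_rangle_single_eq_stdSimplex ℝ (Fin 5)

lemma mem_simp4 {y : Fin 5 → ℝ} : y ∈ simp4 ↔ (∀ i, 0 ≤ y i) ∧ ∑ i, y i = 1 := by
  rw [simp4_eq]; rfl

lemma vtx_mem (i : Fin 5) : vtx i ∈ simp4 := subset_convexHull ℝ _ ⟨i, rfl⟩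

lemma vtx_indep : AffineIndependent ℝ vtx := by
  rw [affineIndependent_iff]
  intro s w _ hs i hi
  have := congrFun hs i
  simpa [vtx, Finset.sum_apply, Pi.single_apply, hi] using this

lemma sum_vtx (y : Fin 5 → ℝ) : ∑ i, y i • vtx i = y := by
  ext j
  simp [vtx, Finset.sum_apply, Pi.single_apply]

lemma convex_simp4 : Convex ℝ simp4 := convex_convexHull ℝ _

/-- the vertices, as points of the simplex -/
def vt (i : Fin 5) : simp4 := ⟨vtx i, vtx_mem i⟩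

/-- An affine function on the simplex is determined by its values at the vertices. -/
lemma form_eq {ω : simp4 → ℝ} (hω : ω ∈ FormSpace simp4) (y : simp4) :
    ω y = ∑ i, (y : Fin 5 → ℝ) i * ω (vt i) := by
  classical
  obtain ⟨-, haff⟩ := hω
  set φ : (Fin 5 → ℝ) → ℝ := fun y => if h : y ∈ simp4 then ω ⟨y, h⟩ else 0 with hφ
  have hval : ∀ z : simp4, φ z = ω z := fun z => by simp [hφ]
  have hcomb : ∀ x ∈ simp4, ∀ y ∈ simp4, ∀ a b : ℝ, 0 ≤ a → 0 ≤ b → a + b = 1 →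
      φ (a • x + b • y) = a • φ x + b • φ y := by
    intro x hx y hy a b ha hb hab
    have hb' : b = 1 - a := by linarith
    subst hb'
    have hz : a • x + (1 - a) • y ∈ simp4 := convex_simp4 hx hy ha hb (by ring)
    have := haff ⟨x, hx⟩ ⟨y, hy⟩ ⟨_, hz⟩ a ha (by linarith) rfl
    simp only [hφ, dif_pos hx, dif_pos hy, dif_pos hz, smul_eq_mul]
    exact this
  have hconv : ConvexOn ℝ simp4 φ :=
    ⟨convex_simp4, fun x hx y hy a b ha hb hab => (hcomb x hx y hy a b ha hb hab).le⟩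
  have hconc : ConcaveOn ℝ simp4 φ :=
    ⟨convex_simp4, fun x hx y hy a b ha hb hab => (hcomb x hx y hy a b ha hb hab).ge⟩
  obtain ⟨h0, h1⟩ := mem_simp4.1 y.2
  have e1 := hconv.map_sum_le (t := Finset.univ) (w := fun i => (y : Fin 5 → ℝ) i) (p := vtx)
    (fun i _ => h0 i) h1 (fun i _ => vtx_mem i)
  have e2 := hconc.le_map_sum (t := Finset.univ) (w := fun i => (y : Fin 5 → ℝ) i) (p := vtx)
    (fun i _ => h0 i) h1 (fun i _ => vtx_mem i)
  rw [sum_vtx] at e1 e2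
  have e3 := le_antisymm e1 e2
  rw [hval y] at e3
  rw [e3]
  refine Finset.sum_congr rfl fun i _ => ?_
  rw [smul_eq_mul]
  congr 1
  exact hval (vt i)

lemma form_eq' {ω : simp4 → ℝ} (hω : ω ∈ FormSpace simp4) (y : simp4) :
    ω y = (y : Fin 5 → ℝ) 0 * ω (vt 0) + (y : Fin 5 → ℝ) 1 * ω (vt 1) +
      (y : Fin 5 → ℝ) 2 * ω (vt 2) + (y : Fin 5 → ℝ) 3 * ω (vt 3) +
      (y : Fin 5 → ℝ) 4 * ω (vt 4) := by
  rw [form_eq hω y, Fin.sum_univ_five]

/-! ### The map `f` -/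

/-- the domain of `f` -/
def fdom : Set (Fin 5 → ℝ) := {y | y ∈ simp4 ∧ y 4 = y 2 + y 3}

lemma fval_mem {y : Fin 5 → ℝ} (hy : y ∈ fdom) :
    (![3 * y 1 + 4 * y 2 + 2 * y 3, 2 * y 2 + 2 * y 3] : Fin 2 → ℝ) ∈ trap := by
  obtain ⟨hy1, hy2⟩ := hy
  obtain ⟨h0, h1⟩ := mem_simp4.1 hy1
  rw [Fin.sum_univ_five] at h1
  have := comb_mem_trap (h0 0) (h0 1) (a2 := 2 * y 2) (a3 := 2 * y 3)
    (by linarith [h0 2]) (by linarith [h0 3]) (by linarith)
  convert this using 2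
  ring

/-- The partial affine onto map `f`. -/
def fmap : PartialAffineOnto simp4 trap where
  dom := fdom
  dom_subset := fun _ h => h.1
  toFun := fun y => ⟨![3 * (y : Fin 5 → ℝ) 1 + 4 * (y : Fin 5 → ℝ) 2 + 2 * (y : Fin 5 → ℝ) 3,
    2 * (y : Fin 5 → ℝ) 2 + 2 * (y : Fin 5 → ℝ) 3], fval_mem y.2⟩
  affine := by
    rintro ⟨x, hx⟩ ⟨y, hy⟩ l hl0 hl1
    refine ⟨⟨convex_simp4 hx.1 hy.1 hl0 (by linarith) (by ring), ?_⟩, ?_⟩
    · have h1 := hx.2
      have h2 := hy.2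
      simp only [Pi.add_apply, Pi.smul_apply, smul_eq_mul]
      rw [h1, h2]
      ring
    · ext i
      fin_cases i <;> simp <;> ring
  onto := by
    rintro ⟨z, hz⟩
    obtain ⟨h1, h2, h3, h4⟩ := trap_le hz
    obtain ⟨s, hs0, hs1, hs⟩ := chord hz
    have q0 : 0 ≤ (1 - s) * (1 - z 1) := mul_nonneg (by linarith) (by linarith)
    have q1 : 0 ≤ s * (1 - z 1) := mul_nonneg (by linarith) (by linarith)
    have q2 : 0 ≤ s * z 1 := mul_nonneg (by linarith) (by linarith)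
    have q3 : 0 ≤ (1 - s) * z 1 := mul_nonneg (by linarith) (by linarith)
    refine ⟨⟨![(1 - s) * (1 - z 1), s * (1 - z 1), s * z 1 / 2, (1 - s) * z 1 / 2, z 1 / 2],
      ⟨mem_simp4.2 ⟨?_, ?_⟩, ?_⟩⟩, ?_⟩
    · intro i
      fin_cases i
      · simpa using q0
      · simpa using q1
      · simpa using (by linarith : (0 : ℝ) ≤ s * z 1 / 2)
      · simpa using (by linarith : (0 : ℝ) ≤ (1 - s) * z 1 / 2)
      · simpa using (by linarith : (0 : ℝ) ≤ z 1 / 2)
    · rw [Fin.sum_univ_five]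
      simp
      ring
    · simp
      ring
    · apply Subtype.ext
      ext i
      fin_cases i
      · simp
        linear_combination hs
      · simp
        ring

/-! ### The map `g` -/

/-- the domain of `g` -/
def gdom : Set (simp4 → ℝ) :=
  {ω | ω ∈ FormSpace simp4 ∧ 3 * (ω (vt 2) - ω (vt 3)) = 2 * (ω (vt 1) - ω (vt 0))}

/-- the value of `g` -/
noncomputable def gval (ω : simp4 → ℝ) (z : trap) : ℝ :=
  ω (vt 0) + (ω (vt 1) - ω (vt 0)) / 3 * (z : Fin 2 → ℝ) 0 +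
    ((ω (vt 3) + ω (vt 4)) / 2 - ω (vt 0) - (ω (vt 1) - ω (vt 0)) / 3) * (z : Fin 2 → ℝ) 1

/-- the values of `ω` and of `g ω` at corresponding points agree -/
lemma gval_f {ω : simp4 → ℝ} (hω : ω ∈ gdom) (y : Fin 5 → ℝ) (hy : y ∈ fdom) :
    gval ω ⟨![3 * y 1 + 4 * y 2 + 2 * y 3, 2 * y 2 + 2 * y 3], fval_mem hy⟩ = ω ⟨y, hy.1⟩ := by
  obtain ⟨h1, h2⟩ := hω
  rw [form_eq' h1 ⟨y, hy.1⟩]
  have h3 := hy.2
  obtain ⟨-, h4⟩ := mem_simp4.1 hy.1
  rw [Fin.sum_univ_five] at h4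
  simp only [gval, Matrix.cons_val_zero, Matrix.cons_val_one]
  have h5 : y 0 = 1 - y 1 - 2 * y 2 - 2 * y 3 := by linarith
  rw [h5, h3]
  linear_combination (-y 2 / 3) * h2

lemma gval_mem {ω : simp4 → ℝ} (hω : ω ∈ gdom) : gval ω ∈ FormSpace trap := by
  refine ⟨?_, ?_⟩
  · intro z
    obtain ⟨⟨y, hy⟩, hyz⟩ := fmap.onto z
    rw [← hyz]
    have := gval_f hω y hy
    have hb := hω.1.1 ⟨y, hy.1⟩
    rw [← this] at hb
    exact hb
  · intro x y z l _ _ h
    simp only [gval, h, Pi.add_apply, Pi.smul_apply, smul_eq_mul]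
    ring

/-- the coordinates of an affine function on the trapezoid -/
lemma trap_form {θ : trap → ℝ} (hθ : θ ∈ FormSpace trap) (z : trap) :
    θ z = θ ⟨_, m0⟩ + (θ ⟨_, m1⟩ - θ ⟨_, m0⟩) / 3 * (z : Fin 2 → ℝ) 0 +
      (θ ⟨_, m3⟩ - θ ⟨_, m0⟩ - (θ ⟨_, m1⟩ - θ ⟨_, m0⟩) / 3) * (z : Fin 2 → ℝ) 1 ∧
    3 * (θ ⟨_, m2⟩ - θ ⟨_, m3⟩) = θ ⟨_, m1⟩ - θ ⟨_, m0⟩ := by
  obtain ⟨-, haff⟩ := hθ
  have rel : 3 * (θ ⟨_, m2⟩ - θ ⟨_, m3⟩) = θ ⟨_, m1⟩ - θ ⟨_, m0⟩ := by
    have hq : (3 / 4 : ℝ) • (![2, 1] : Fin 2 → ℝ) + (1 - 3 / 4 : ℝ) • ![0, 0] ∈ trap :=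
      convex_trap m2 m0 (by norm_num) (by norm_num) (by norm_num)
    have a1 := haff ⟨_, m2⟩ ⟨_, m0⟩ ⟨_, hq⟩ (3 / 4) (by norm_num) (by norm_num) rfl
    have a2 := haff ⟨_, m3⟩ ⟨_, m1⟩ ⟨_, hq⟩ (3 / 4) (by norm_num) (by norm_num) (by
      ext i; fin_cases i <;> norm_num)
    linarith
  refine ⟨?_, rel⟩
  obtain ⟨z, hz⟩ := z
  obtain ⟨h1, h2, h3, h4⟩ := trap_le hz
  obtain ⟨s, hs0, hs1, hs⟩ := chord hz
  have hl : (z 1) • (![1, 1] : Fin 2 → ℝ) + (1 - z 1) • ![0, 0] ∈ trap :=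
    convex_trap m3 m0 h1 (by linarith) (by ring)
  have hr : (z 1) • (![2, 1] : Fin 2 → ℝ) + (1 - z 1) • ![3, 0] ∈ trap :=
    convex_trap m2 m1 h1 (by linarith) (by ring)
  have b1 := haff ⟨_, m3⟩ ⟨_, m0⟩ ⟨_, hl⟩ (z 1) h1 h2 rfl
  have b2 := haff ⟨_, m2⟩ ⟨_, m1⟩ ⟨_, hr⟩ (z 1) h1 h2 rfl
  have b3 := haff ⟨_, hr⟩ ⟨_, hl⟩ ⟨z, hz⟩ s hs0 hs1 (by
    ext i
    fin_cases i
    · simp
      linear_combination -hs
    · simp
      ring)
  rw [b3, b1, b2]
  linear_combination (s * z 1 / 3) * rel + ((θ ⟨_, m1⟩ - θ ⟨_, m0⟩) / 3) * hs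

/-- a lift of a form on the trapezoid -/
lemma lift_exists {c0 c1 c2 c3 : ℝ} (h0 : 0 ≤ c0 ∧ c0 ≤ 1) (h1 : 0 ≤ c1 ∧ c1 ≤ 1)
    (h2 : 0 ≤ c2 ∧ c2 ≤ 1) (h3 : 0 ≤ c3 ∧ c3 ≤ 1) (rel : 3 * (c2 - c3) = c1 - c0) :
    ∃ u : ℝ, (0 ≤ u ∧ u ≤ 1) ∧ (0 ≤ 2 * c2 - u ∧ 2 * c2 - u ≤ 1) ∧
      (0 ≤ 2 * c3 - u ∧ 2 * c3 - u ≤ 1) := by
  refine ⟨max 0 (max (2 * c2 - 1) (2 * c3 - 1)), ⟨le_max_left _ _, ?_⟩, ⟨?_, ?_⟩, ?_, ?_⟩
  · refine max_le (by norm_num) (max_le (by linarith) (by linarith))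
  · have : max 0 (max (2 * c2 - 1) (2 * c3 - 1)) ≤ 2 * c2 :=
      max_le (by linarith) (max_le (by linarith) (by linarith))
    linarith
  · have : 2 * c2 - 1 ≤ max 0 (max (2 * c2 - 1) (2 * c3 - 1)) :=
      le_trans (le_max_left _ _) (le_max_right _ _)
    linarith
  · have : max 0 (max (2 * c2 - 1) (2 * c3 - 1)) ≤ 2 * c3 :=
      max_le (by linarith) (max_le (by linarith) (by linarith))
    linarith
  · have : 2 * c3 - 1 ≤ max 0 (max (2 * c2 - 1) (2 * c3 - 1)) :=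
      le_trans (le_max_right _ _) (le_max_right _ _)
    linarith

/-- the affine function on the simplex with given vertex values -/
def lin (a : Fin 5 → ℝ) (y : simp4) : ℝ := ∑ i, (y : Fin 5 → ℝ) i * a i

lemma lin_mem {a : Fin 5 → ℝ} (ha : ∀ i, 0 ≤ a i ∧ a i ≤ 1) : lin a ∈ FormSpace simp4 := by
  refine ⟨?_, ?_⟩
  · intro y
    obtain ⟨h0, h1⟩ := mem_simp4.1 y.2
    refine ⟨Finset.sum_nonneg fun i _ => mul_nonneg (h0 i) (ha i).1, ?_⟩
    rw [← h1]
    refine Finset.sum_le_sum fun i _ => ?_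
    nlinarith [h0 i, (ha i).2]
  · intro x y z l _ _ h
    simp only [lin, h, Pi.add_apply, Pi.smul_apply, smul_eq_mul, Finset.mul_sum,
      ← Finset.sum_add_distrib]
    refine Finset.sum_congr rfl fun i _ => ?_
    ring

lemma lin_vt (a : Fin 5 → ℝ) (i : Fin 5) : lin a (vt i) = a i := by
  simp [lin, vt, vtx, Pi.single_apply]

/-- The partial affine onto map `g`. -/
noncomputable def gmap : PartialAffineOnto (FormSpace simp4) (FormSpace trap) where
  dom := gdom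
  dom_subset := fun _ h => h.1
  toFun := fun ω => ⟨gval ω, gval_mem ω.2⟩
  affine := by
    rintro ⟨x, hx⟩ ⟨y, hy⟩ l hl0 hl1
    refine ⟨⟨⟨?_, ?_⟩, ?_⟩, ?_⟩
    · intro p
      have hxp := hx.1.1 p
      have hyp := hy.1.1 p
      simp only [Pi.add_apply, Pi.smul_apply, smul_eq_mul]
      constructor <;> nlinarith
    · intro p q r t ht0 ht1 h
      have hxp := hx.1.2 p q r t ht0 ht1 h
      have hyp := hy.1.2 p q r t ht0 ht1 h
      simp only [Pi.add_apply, Pi.smul_apply, smul_eq_mul, hxp, hyp]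
      ring
    · have h1 := hx.2
      have h2 := hy.2
      simp only [Pi.add_apply, Pi.smul_apply, smul_eq_mul]
      linear_combination l * h1 + (1 - l) * h2
    · ext z
      simp only [gval, Pi.add_apply, Pi.smul_apply, smul_eq_mul]
      ring
  onto := by
    rintro ⟨θ, hθ⟩
    have rel := (trap_form hθ ⟨_, m0⟩).2
    obtain ⟨u, hu, hu2, hu3⟩ := lift_exists (hθ.1 ⟨_, m0⟩) (hθ.1 ⟨_, m1⟩) (hθ.1 ⟨_, m2⟩)
      (hθ.1 ⟨_, m3⟩) rel
    set a : Fin 5 → ℝ := ![θ ⟨_, m0⟩, θ ⟨_, m1⟩, 2 * θ ⟨_, m2⟩ - u, 2 * θ ⟨_, m3⟩ - u, u]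
      with ha
    refine ⟨⟨lin a, ⟨lin_mem ?_, ?_⟩⟩, ?_⟩
    · intro i
      fin_cases i
      exacts [hθ.1 ⟨_, m0⟩, hθ.1 ⟨_, m1⟩, hu2, hu3, hu]
    · simp only [lin_vt]
      simp [ha]
      linarith
    · apply Subtype.ext
      funext z
      have h := (trap_form hθ z).1
      simp only [gval, lin_vt]
      simp [ha]
      rw [h]

/-- The simplicial refinement of the trapezoid. -/
noncomputable def refinement : SimplicialRefinement trap (convexHull ℝ (range vtx)) where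
  isSimplex := ⟨4, vtx, vtx_indep, rfl⟩
  f := fmap
  g := gmap
  compatible := by
    rintro ⟨y, hy⟩ ⟨ω, hω⟩
    exact gval_f hω y hy

/-- The vertex `vtx 4` of `T` has a positive barycentric coefficient at a point of the preimage of
the extreme point `(2,1)`. -/
lemma positive_a : PositiveAt vtx (refinement.f.preimage ![2, 1]) 4 := by
  refine ⟨![0, 0, 1 / 2, 0, 1 / 2], ?_, ?_, ?_, ?_⟩
  · intro j; fin_cases j <;> simp
  · rw [Fin.sum_univ_five]; simp; norm_num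
  · rw [sum_vtx]
    refine ⟨⟨mem_simp4.2 ⟨?_, ?_⟩, ?_⟩, ?_⟩
    · intro j; fin_cases j <;> simp
    · rw [Fin.sum_univ_five]; simp; norm_num
    · simp
    · change (![_, _] : Fin 2 → ℝ) = _
      ext i
      fin_cases i
      · simp
        norm_num
      · simp
  · simp

/-- The vertex `vtx 4` of `T` has a positive barycentric coefficient at a point of the preimage of
the extreme point `(1,1)`. -/
lemma positive_b : PositiveAt vtx (refinement.f.preimage ![1, 1]) 4 := by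
  refine ⟨![0, 0, 0, 1 / 2, 1 / 2], ?_, ?_, ?_, ?_⟩
  · intro j; fin_cases j <;> simp
  · rw [Fin.sum_univ_five]; simp; norm_num
  · rw [sum_vtx]
    refine ⟨⟨mem_simp4.2 ⟨?_, ?_⟩, ?_⟩, ?_⟩
    · intro j; fin_cases j <;> simp
    · rw [Fin.sum_univ_five]; simp; norm_num
    · simp
    · change (![_, _] : Fin 2 → ℝ) = _
      ext i
      fin_cases i
      · simp
      · simp
  · simp

/-- **Main theorem.** The statement of Q1 is false: it is not true that for every convex polytope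
`C` which is not a simplex, every simplex `T` with vertices `v 0, …, v n`, every simplicial
refinement `R = (T, Ω_T, f, g)` of `(C, Ω_C)` and all distinct extreme points `a`, `b` of `C`, the
minimal faces of `T` containing `f⁻¹(a)` and `f⁻¹(b)` are disjoint. -/
theorem result :
    ¬ ∀ (E V : Type) [AddCommGroup E] [Module ℝ E] [FiniteDimensional ℝ E] [AddCommGroup V]
      [Module ℝ V] [FiniteDimensional ℝ V] (C : Set E) (n : ℕ) (v : Fin (n + 1) → V)
      (R : SimplicialRefinement C (convexHull ℝ (range v))) (a b : E),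
      IsConvexPolytope C → ¬ IsSimplex C → AffineIndependent ℝ v →
      a ∈ C.extremePoints ℝ → b ∈ C.extremePoints ℝ → a ≠ b →
      minimalFace v (R.f.preimage a) ∩ minimalFace v (R.f.preimage b) = ∅ := by
  intro h
  have h1 := h (Fin 2 → ℝ) (Fin 5 → ℝ) trap 4 vtx refinement ![2, 1] ![1, 1] trap_polytope
    trap_not_simplex vtx_indep e2 e3 (by
      intro h
      have := congrFun h 0
      norm_num at this)
  have h2 : vtx 4 ∈ minimalFace vtx (refinement.f.preimage ![2, 1]) ∩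
      minimalFace vtx (refinement.f.preimage ![1, 1]) :=
    ⟨subset_convexHull ℝ _ ⟨4, positive_a, rfl⟩, subset_convexHull ℝ _ ⟨4, positive_b, rfl⟩⟩
  rw [h1] at h2
  exact h2

end Pool.Agent.Results.MP_b5b962_gt.SharedVertex
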